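import Mathlib
import Pool.Agent.X1.NfaLin2

/-!
# Small automata and integer combinations of the digits of a tuple of algebraic numbers

Let `α_1, …, α_n` be real algebraic numbers with `1, α_1, …, α_n` linearly independent over the
rationals.  An automaton with at most `N^(1-δ)` states which accepts the first `N` terms of a
nontrivial integer linear combination of the rows of digits, for instance of the digitwise sum of
two rows, or a word which differs from them in at most `C log N` places, accepts at least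
`exp (C (log N)^2)` words of length `N`.
-/

set_option autoImplicit false

namespace Pool.Agent.Results.MP_c8ecb2_nt.AcceptedWordsOfCombinations

open Finset

/-- the `(i+1)`-st digit after the point of the real number `x` in base `b`, where the integer part
is the floor: for `x = [x] + 0.a_1a_2a_3…` it is `a_(i+1) = ⌊b^(i+1) x⌋ - b ⌊b^i x⌋` -/
noncomputable def digit (b : ℕ) (x : ℝ) (i : ℕ) : ℤ :=
  ⌊(b : ℝ) ^ (i + 1) * x⌋ - b * ⌊(b : ℝ) ^ i * x⌋

/-- the sequence of the values of an integer linear form in the entries of the `n × m` digit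
matrices of a tuple: its `i`-th term is `∑_(j,t) c_(j,t) a_(j,i+t)` -/
noncomputable def code {n m : ℕ} (b : ℕ) (α : Fin n → ℝ) (c : Fin n → Fin m → ℤ) (i : ℕ) : ℤ :=
  ∑ j, ∑ t, c j t * digit b (α j) (i + t)

/-- the number (possibly infinite, since the alphabet is infinite) of words of length `N` accepted
by the automaton -/
noncomputable def numAccepted {σ : Type} (M : NFA ℤ σ) (N : ℕ) : ℕ∞ :=
  {w : List ℤ | w ∈ M.accepts ∧ w.length = N}.encard

/-- Let `α_1, …, α_n` be real algebraic numbers with `1, α_1, …, α_n` linearly independent over `ℚ`,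
let `b ≥ 2`, `m ≥ 1`, and let `c_(j,t)` be integers with `∑_t c_(j,t) b^t ≠ 0` for some `j` (for
`m = 1`: not all of `c_(1,0), …, c_(n,0)` are zero).  Let `δ > 0` and `C ≥ 0`.  Then for all large
`N` and all nondeterministic finite automata `M` (whose letters are integers) with at most
`N^(1-δ)` states: if `M` accepts a word `d_0 … d_(N-1)` which differs in at most `C log N` places
from the first `N` terms of the sequence `∑_(j,t) c_(j,t) a_(j,i+t)`, then it accepts at least
`exp (C (log N)^2)` words of length `N`. -/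
theorem result {n m : ℕ} (α : Fin n → ℝ) (halg : ∀ j, IsAlgebraic ℚ (α j))
    (hind : LinearIndependent ℚ (Fin.cons 1 α : Fin (n + 1) → ℝ)) (b : ℕ) (hb : 2 ≤ b)
    (c : Fin n → Fin m → ℤ) (hc : ∃ j, ∑ t, c j t * (b : ℤ) ^ (t : ℕ) ≠ 0)
    (δ C : ℝ) (hδ : 0 < δ) (hC : 0 ≤ C) :
    ∃ N₁ : ℕ, ∀ (σ : Type) [Fintype σ] (M : NFA ℤ σ) (N : ℕ), N₁ ≤ N →
      (Fintype.card σ : ℝ) ≤ (N : ℝ) ^ (1 - δ) →
      ∀ d : ℕ → ℤ, (((range N).filter fun i => d i ≠ code b α c i).card : ℝ) ≤ C * Real.log N →
        (List.range N).map d ∈ M.accepts →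
        ((⌈Real.exp (C * Real.log N ^ 2)⌉₊ : ℕ) : ℕ∞) ≤ numAccepted M N := by
  obtain ⟨T, hT, h⟩ := Pool.Agent.X1.NfaAlg.aper_words_inf hδ hC
  have hT2 : (2 : ℝ) ≤ T := by exact_mod_cast hT
  obtain ⟨N₀, hN₀⟩ := Pool.Agent.X1.NfaAlg.code_noPer α halg hind hb c hc (1 / (T : ℝ))
    (by positivity) (div_le_div_of_nonneg_left (by norm_num) (by norm_num) hT2)
  obtain ⟨N₁, hN₁⟩ := h (5 / 2) N₀ (by norm_num)
  refine ⟨N₁, fun σ _ M N hN hq d hd hacc => ?_⟩
  by_cases hfin : {w : List ℤ | w ∈ M.accepts ∧ w.length = N}.Finite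
  · have h1 := (hN₁ ℤ σ (code b α c) hN₀ M N hN hq d hd hacc).resolve_left
      (Set.not_infinite.2 hfin)
    unfold numAccepted
    rw [← hfin.cast_ncard_eq]
    exact_mod_cast Nat.ceil_le.2 h1
  · unfold numAccepted
    rw [Set.Infinite.encard_eq hfin]
    exact le_top

end Pool.Agent.Results.MP_c8ecb2_nt.AcceptedWordsOfCombinations
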