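import Mathlib
import Pool.Agent.X1.NfaLin2

/-!
# Automatic complexity of integer combinations of the digits of a tuple of algebraic numbers

Let `α_1, …, α_n` be real algebraic numbers with `1, α_1, …, α_n` linearly independent over the
rationals.  A sliding block code which is a nontrivial integer linear combination of the digits in
a window of the digit matrix, for instance the digitwise sum or difference of two rows, produces a
sequence whose first `N` terms have automatic complexity at least `N exp (-ε √(log N))`.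
-/

set_option autoImplicit false

namespace Pool.Agent.Results.MP_c8ecb2_nt.ComplexityOfCombinations

/-- the `(i+1)`-st digit after the point of the real number `x` in base `b`, where the integer part
is the floor: for `x = [x] + 0.a_1a_2a_3…` it is `a_(i+1) = ⌊b^(i+1) x⌋ - b ⌊b^i x⌋` -/
noncomputable def digit (b : ℕ) (x : ℝ) (i : ℕ) : ℤ :=
  ⌊(b : ℝ) ^ (i + 1) * x⌋ - b * ⌊(b : ℝ) ^ i * x⌋

/-- the sequence of the values of an integer linear form in the entries of the `n × m` digit
matrices of a tuple: its `i`-th term is `∑_(j,t) c_(j,t) a_(j,i+t)` -/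
noncomputable def code {n m : ℕ} (b : ℕ) (α : Fin n → ℝ) (c : Fin n → Fin m → ℤ) (i : ℕ) : ℤ :=
  ∑ j, ∑ t, c j t * digit b (α j) (i + t)

/-- Let `α_1, …, α_n` be real algebraic numbers with `1, α_1, …, α_n` linearly independent over `ℚ`,
let `b ≥ 2`, `m ≥ 1`, and let `c_(j,t)` be integers with `∑_t c_(j,t) b^t ≠ 0` for some `j` (for
`m = 1`: not all of `c_(1,0), …, c_(n,0)` are zero).  Let `ε > 0`.  Then for all large `N` every
nondeterministic finite automaton (whose letters are integers) which accepts the word formed by the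
first `N` terms of the sequence `∑_(j,t) c_(j,t) a_(j,i+t)` and no other word of length `N` has at
least `N exp (-ε √(log N))` states. -/
theorem result {n m : ℕ} (α : Fin n → ℝ) (halg : ∀ j, IsAlgebraic ℚ (α j))
    (hind : LinearIndependent ℚ (Fin.cons 1 α : Fin (n + 1) → ℝ)) (b : ℕ) (hb : 2 ≤ b)
    (c : Fin n → Fin m → ℤ) (hc : ∃ j, ∑ t, c j t * (b : ℤ) ^ (t : ℕ) ≠ 0)
    (ε : ℝ) (hε : 0 < ε) :
    ∃ N₁ : ℕ, ∀ (σ : Type) [Fintype σ] (M : NFA ℤ σ) (N : ℕ), N₁ ≤ N →
      (List.range N).map (code b α c) ∈ M.accepts →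
      (∀ w ∈ M.accepts, w.length = N → w = (List.range N).map (code b α c)) →
      (N : ℝ) * Real.exp (-(ε * √(Real.log N))) ≤ Fintype.card σ := by
  obtain ⟨T, hT, h⟩ := Pool.Agent.X1.NfaAlg.aper_states_inf hε
  have hT2 : (2 : ℝ) ≤ T := by exact_mod_cast hT
  obtain ⟨N₀, hN₀⟩ := Pool.Agent.X1.NfaAlg.code_noPer α halg hind hb c hc (1 / (T : ℝ))
    (by positivity) (div_le_div_of_nonneg_left (by norm_num) (by norm_num) hT2)
  obtain ⟨N₁, hN₁⟩ := h (5 / 2) N₀ (by norm_num)
  exact ⟨N₁, fun σ _ M N hN hacc huniq => hN₁ ℤ σ (code b α c) hN₀ M N hN hacc huniq⟩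

end Pool.Agent.Results.MP_c8ecb2_nt.ComplexityOfCombinations
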