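import Mathlib
import Pool.Agent.X121.WN.Alg

/-!
# Digit matrices of tuples of roots of most integers, in all bases at once

Let `g_t (n) = n ^ θ_t` with different exponents (for example `√n, ∛n, …`), or `g_t (n) = (n + a_t) ^ θ`
with different shifts (for example `√(n + 1), …, √(n + k)`), and let `α_1, …, α_r` be real algebraic
numbers which are linearly independent over `ℚ`. For most integers `n` the `r k` numbers
`α_s g_t (n)` are simultaneously normal up to `ε` in all windows of at least `(log N) ^ (1 / 8)`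
consecutive places up to `(log N) ^ (9 / 8)`, in all bases `b ≤ exp (c (log N) ^ (1 / 8))` at once.

Proof. The exponential sums `∑_n e(∑_t f_t g_t (n))` are bounded by a local approximation with
polynomials of high degree and Vinogradov's mean value theorem with explicit constants; the
coefficients of the polynomials are bounded from below with differential operators which eliminate
the `g_t` one after the other, and `f_t = ∑_s X_s α_s` with a measure of linear independence. With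
trigonometric majorants this gives the joint law of `(log N) ^ (1 / 8)` digits. The windows are cut into
chunks of independent digits, for which large deviations are exponentially rare, so that a union
bound over all bases, windows and boxes is possible.
-/

set_option autoImplicit false

open Real

namespace Pool.Agent.Results.MP_c8ecb2_nt.DistinctExponents

/-- The digit of `x` at the place `n + 1` after the point, in base `b`. -/
noncomputable def digit (b n : ℕ) (x : ℝ) : ℕ := ⌊(b : ℝ) * Int.fract ((b : ℝ) ^ n * x)⌋₊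

/-- The number of the `j`, `i ≤ j < i + W`, for which the fractional part of `b ^ j x_(s,t)` lies in
`[u_(s,t), v_(s,t))` for all `s` and `t`. -/
noncomputable def count {r k : ℕ} (b : ℕ) (x : Fin r → Fin k → ℝ) (i W : ℕ) (u v : Fin r → Fin k → ℝ) : ℕ :=
  {j : ℕ | i ≤ j ∧ j < i + W ∧ ∀ s t, u s t ≤ Int.fract ((b : ℝ) ^ j * x s t) ∧
    Int.fract ((b : ℝ) ^ j * x s t) < v s t}.ncard

/-- The number of the `j`, `i ≤ j < i + W`, for which the digits of the numbers `x_(s,t)` in base `b` at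
the places `j + 1, …, j + m` after the point form the digit matrix `D`. -/
noncomputable def occ {r k : ℕ} (b : ℕ) (x : Fin r → Fin k → ℝ) (i W m : ℕ)
    (D : Fin r → Fin k → Fin m → Fin b) : ℕ :=
  {j : ℕ | i ≤ j ∧ j < i + W ∧ ∀ s t, ∀ l : Fin m, digit b (j + l) (x s t) = D s t l}.ncard

/-- In the window `i ≤ j < i + W` the tuple `x` is simultaneously normal to base `b` up to `ε`: the
proportion of the `j` with `({b ^ j x_(s,t)})` in a box is its volume up to `ε`, for all boxes in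
`[0, 1) ^ (r k)`, and every digit matrix with `m` columns, for every `m`, has the frequency
`b ^ (- m r k)` up to `ε`. -/
def NormalUpTo {r k : ℕ} (ε : ℝ) (b : ℕ) (x : Fin r → Fin k → ℝ) (i W : ℕ) : Prop :=
  (∀ u v : Fin r → Fin k → ℝ, (∀ s t, 0 ≤ u s t) → (∀ s t, u s t ≤ v s t) → (∀ s t, v s t ≤ 1) →
    |(count b x i W u v : ℝ) - (∏ s, ∏ t, (v s t - u s t)) * W| ≤ ε * W) ∧
  ∀ (m : ℕ) (D : Fin r → Fin k → Fin m → Fin b),
    |(occ b x i W m D : ℝ) - W / (b : ℝ) ^ (m * (r * k))| ≤ ε * W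

theorem ncard_eq (i W : ℕ) (P : ℕ → Prop) [DecidablePred P] :
    {j : ℕ | i ≤ j ∧ j < i + W ∧ P j}.ncard = ((Finset.range W).filter fun j => P (i + j)).card := by
  classical
  have e2 : {j : ℕ | i ≤ j ∧ j < i + W ∧ P j} =
      ((((Finset.range W).filter fun j => P (i + j)).image (fun j => i + j) : Finset ℕ) : Set ℕ) := by
    ext j
    simp only [Set.mem_ofPred_eq, Finset.coe_image, Finset.coe_filter, Finset.mem_range, Set.mem_image]
    constructor
    · rintro ⟨a1, a2, a3⟩
      have a4 : i + (j - i) = j := by omega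
      exact ⟨j - i, ⟨by omega, by rw [a4]; exact a3⟩, a4⟩
    · rintro ⟨j', ⟨a1, a3⟩, rfl⟩
      exact ⟨by omega, by omega, a3⟩
  rw [e2, Set.ncard_coe_finset, Finset.card_image_of_injective _ (fun a a' h => by simpa using h)]

theorem normal_of {r k : ℕ} {ε Λ : ℝ} {b : ℕ} (hb : 1 ≤ b) {Adm : ℕ → Prop} (x : Fin r → Fin k → ℝ)
    (h : Pool.Agent.X121.WN.WinGood ε Λ b Adm (fun j : Fin r × Fin k => x j.1 j.2)) {i W : ℕ} (hW : Λ ≤ W)
    (hA : ∀ n, i ≤ n → n < i + W → Adm n) : NormalUpTo ε b x i W := by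
  classical
  have key : ∀ u v : Fin r → Fin k → ℝ, (∀ s t, 0 ≤ u s t) → (∀ s t, u s t ≤ v s t) → (∀ s t, v s t ≤ 1) →
      |(count b x i W u v : ℝ) - (∏ s, ∏ t, (v s t - u s t)) * W| ≤ ε * W := by
    intro u v hu huv hv
    have h1 := h i W hW hA (fun j => u j.1 j.2) (fun j => v j.1 j.2) (fun j => hu _ _) (fun j => huv _ _)
      (fun j => hv _ _)
    rw [Fintype.prod_prod_type] at h1
    unfold count
    rw [ncard_eq]
    simp only [Prod.forall] at h1
    exact h1
  refine ⟨key, fun m D => ?_⟩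
  have hb0 : (0 : ℝ) < b := by exact_mod_cast hb
  have hbm : (0 : ℝ) < (b : ℝ) ^ m := by positivity
  have h1 := key (fun s t => ((Pool.Agent.X121.WN.val (D s t) : ℕ) : ℝ) / (b : ℝ) ^ m)
    (fun s t => ((Pool.Agent.X121.WN.val (D s t) : ℕ) + 1 : ℝ) / (b : ℝ) ^ m)
    (fun s t => by positivity)
    (fun s t => div_le_div_of_nonneg_right (by linarith) hbm.le)
    (fun s t => by
      rw [div_le_one hbm]
      have := Pool.Agent.X121.WN.val_lt (D s t)
      exact_mod_cast this)
  have e1 : (∏ s : Fin r, ∏ t : Fin k, (((Pool.Agent.X121.WN.val (D s t) : ℕ) + 1 : ℝ) / (b : ℝ) ^ m -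
      ((Pool.Agent.X121.WN.val (D s t) : ℕ) : ℝ) / (b : ℝ) ^ m)) * W = W / (b : ℝ) ^ (m * (r * k)) := by
    have e2 : ∀ (s : Fin r) (t : Fin k), (((Pool.Agent.X121.WN.val (D s t) : ℕ) + 1 : ℝ) / (b : ℝ) ^ m -
      ((Pool.Agent.X121.WN.val (D s t) : ℕ) : ℝ) / (b : ℝ) ^ m) = 1 / (b : ℝ) ^ m := by
      intro s t
      ring
    simp only [e2, Finset.prod_const, Finset.card_univ, Fintype.card_fin]
    rw [← pow_mul, div_pow, one_pow, ← pow_mul, mul_comm k r]
    ring
  rw [e1] at h1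
  have e3 : occ b x i W m D = count b x i W (fun s t => ((Pool.Agent.X121.WN.val (D s t) : ℕ) : ℝ) / (b : ℝ) ^ m)
      (fun s t => ((Pool.Agent.X121.WN.val (D s t) : ℕ) + 1 : ℝ) / (b : ℝ) ^ m) := by
    unfold occ count
    congr 1
    ext j
    simp only [Set.mem_ofPred_eq]
    refine and_congr_right fun _ => and_congr_right fun _ => forall_congr' fun s => forall_congr' fun t => ?_
    rw [← Pool.Agent.X121.WN.digits_iff hb]
    refine forall_congr' fun l => ?_
    unfold digit
    rw [← mul_assoc, ← pow_add, Nat.add_comm (l : ℕ) j]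
  rw [e3]
  exact h1

/-- **Simultaneous normality of tuples of roots, up to `(log N) ^ (9 / 8)` digits, in all bases.** Let
`g_t (n) = (n + a_t) ^ (θ_t)`, `t < k`, where the `θ_t > 0` are not integers and where either the `θ_t`
are distinct and all `a_t = 0`, or the `a_t ≥ 0` are distinct and all `θ_t` are equal; let
`α_s`, `s < r`, be real algebraic numbers, linearly independent over `ℚ`; let `0 < η ≤ 1`, `ε > 0`.
There are `c > 0` and `N₀` such that for all `N ≥ N₀`, `N ^ η ≤ H ≤ N` and all real `z_(s,t)`, all but at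
most `exp (-c (log N) ^ (1 / 8)) H` of the integers `n ∈ (N, N + H]` have the following property: the
tuple of the `r k` numbers `α_s g_t (n) + z_(s,t)` is `NormalUpTo ε` in ALL bases
`2 ≤ b ≤ exp (c (log N) ^ (1 / 8))` and in ALL windows `i ≤ j < i + W` with `W ≥ (log N) ^ (1 / 8)`,
`b ^ i ≥ N ^ (8 k / η)` and `b ^ (i + W) ≤ exp ((log N) ^ (9 / 8))`. -/
theorem result {r k : ℕ} (hk : 1 ≤ k) (a θ : Fin k → ℝ) (hθ0 : ∀ t, 0 < θ t) (hθ : ∀ t, ∀ n : ℕ, θ t ≠ n)
    (h : (Function.Injective θ ∧ ∀ t, a t = 0) ∨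
      ((∀ t, 0 ≤ a t) ∧ Function.Injective a ∧ ∀ t t', θ t = θ t'))
    (α : Fin r → ℝ) (hα : ∀ s, IsAlgebraic ℚ (α s)) (hli : LinearIndependent ℚ α)
    {η : ℝ} (hη : 0 < η) (hη1 : η ≤ 1) {ε : ℝ} (hε : 0 < ε) :
    ∃ c : ℝ, 0 < c ∧ ∃ N₀ : ℕ, ∀ N H : ℕ, N₀ ≤ N → (N : ℝ) ^ η ≤ H → H ≤ N →
      ∀ z : Fin r → Fin k → ℝ,
      ({n : ℕ | N < n ∧ n ≤ N + H ∧
        ¬ ∀ b : ℕ, 2 ≤ b → (b : ℝ) ≤ exp (c * log N ^ (1 / 8 : ℝ)) →
          ∀ i W : ℕ, log N ^ (1 / 8 : ℝ) ≤ W → 8 * k / η * log N ≤ i * log b →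
          ((i : ℝ) + W) * log b ≤ log N ^ (9 / 8 : ℝ) →
          NormalUpTo ε b (fun s t => α s * ((n : ℝ) + a t) ^ θ t + z s t) i W}.ncard : ℝ) ≤
        exp (-(c * log N ^ (1 / 8 : ℝ))) * H := by
  classical
  have : Nonempty (Fin k) := ⟨⟨0, hk⟩⟩
  have ha : ∀ t, 0 ≤ a t := by
    rcases h with h | h
    · intro t; rw [h.2 t]
    · exact h.1
  -- the lower bound
  obtain ⟨q, C, hC, hqC, hLB⟩ : ∃ (q : ℕ) (C : ℝ), 0 ≤ C ∧ C + q + 2 ≤ 2 * k ∧ Pool.Agent.X121.GS.LB a θ q C := by
    have hk' : ((k - 1 : ℕ) : ℝ) = k - 1 := by rw [Nat.cast_sub hk, Nat.cast_one]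
    have hk1 : (1 : ℝ) ≤ k := by exact_mod_cast hk
    rcases h with h | h
    · have h1 := Pool.Agent.X121.GS.LB_A θ hθ h.1
      rw [Fintype.card_fin] at h1
      have e : a = fun _ => 0 := funext h.2
      rw [e]
      exact ⟨k - 1, 0, le_rfl, by rw [hk']; linarith, h1⟩
    · have h1 := Pool.Agent.X121.GS.LB_B a h.1 h.2.1 (hθ0 ⟨0, hk⟩) (hθ ⟨0, hk⟩)
      rw [Fintype.card_fin] at h1
      have e : θ = fun _ => θ ⟨0, hk⟩ := funext fun t => h.2.2 t _
      rw [e]
      exact ⟨k - 1, (k - 1 : ℕ), Nat.cast_nonneg _, by rw [hk']; linarith, h1⟩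
  obtain ⟨c₁, ν, hc₁, hν, hLI⟩ := Pool.Agent.X121.WN.LI_alg α hα hli
  obtain ⟨c, hc0, -, N₀, hmain⟩ := Pool.Agent.X121.WN.multi ha hθ0 hC hLB α hc₁ hν hLI hη hη1
    (ε := min ε 1) (lt_min hε one_pos) (min_le_right _ _)
  refine ⟨c, hc0, max N₀ 1, fun N H hN hH1 hH2 z => ?_⟩
  have hN1 : 1 ≤ N := (le_max_right _ _).trans hN
  have hlogN : 0 ≤ log (N : ℝ) := log_natCast_nonneg N
  obtain ⟨P, hP⟩ : ∃ P : ℕ → Prop, P = fun n : ℕ => ∀ b : ℕ, 2 ≤ b → (b : ℝ) ≤ exp (c * log N ^ (1 / 8 : ℝ)) →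
          ∀ i W : ℕ, log N ^ (1 / 8 : ℝ) ≤ W → 8 * k / η * log N ≤ i * log b →
          ((i : ℝ) + W) * log b ≤ log N ^ (9 / 8 : ℝ) →
          NormalUpTo ε b (fun s t => α s * ((n : ℝ) + a t) ^ θ t + z s t) i W := ⟨_, rfl⟩
  have e : {n : ℕ | N < n ∧ n ≤ N + H ∧ ¬ P n} = ((Finset.Ioc N (N + H)).filter fun n => ¬ P n : Finset ℕ) := by
    ext n
    simp only [Set.mem_ofPred_eq, Finset.coe_filter, Finset.mem_Ioc]
    tauto
  have h1 := hmain N H ((le_max_left _ _).trans hN) hH1 hH2 (fun _ => 1) (fun j => z j.1 j.2)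
    (fun _ => by simp) (fun _ => by
      rw [abs_one]
      exact one_le_exp (rpow_nonneg hlogN _)) ((Finset.Ioc N (N + H)).filter fun n => ¬ P n)
    (Finset.filter_subset _ _) (by
      intro n hn
      have hn2 := (Finset.mem_filter.1 hn).2
      rw [hP] at hn2
      simp only [not_forall] at hn2
      obtain ⟨b, hb2, hbe, i, W, hW, hi, hiW, hnot⟩ := hn2
      refine ⟨b, hb2, hbe, fun hgood => hnot ?_⟩
      have hlogb : 0 ≤ log (b : ℝ) := log_natCast_nonneg b
      have hgood' : Pool.Agent.X121.WN.WinGood (min ε 1) (log N ^ (1 / 8 : ℝ)) b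
          (fun j => (j : ℝ) * log b ≤ log N ^ (9 / 8 : ℝ) ∧ (C + q + 2) / (η / 4) * log N ≤ j * log b)
          (fun j : Fin r × Fin k => (fun s t => α s * ((n : ℝ) + a t) ^ θ t + z s t) j.1 j.2) := by
        have e5 : (fun j : Fin r × Fin k => (fun s t => α s * ((n : ℝ) + a t) ^ θ t + z s t) j.1 j.2) =
            (fun j : Fin r × Fin k => α j.1 * ((fun _ => (1 : ℝ)) j.2 * ((n : ℝ) + a j.2) ^ θ j.2) + z j.1 j.2) := by
          funext j
          simp only [one_mul]
        rw [e5]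
        exact hgood
      have h2 := normal_of (r := r) (k := k) (by omega)
        (fun s t => α s * ((n : ℝ) + a t) ^ θ t + z s t) hgood' (i := i) (W := W) hW (by
        intro m hm1 hm2
        refine ⟨?_, ?_⟩
        · refine le_trans ?_ hiW
          have : (m : ℝ) ≤ (i : ℝ) + W := by exact_mod_cast hm2.le
          exact mul_le_mul_of_nonneg_right this hlogb
        · have h3 : (C + q + 2) / (η / 4) * log N ≤ 8 * k / η * log N := by
            apply mul_le_mul_of_nonneg_right _ hlogN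
            rw [div_le_div_iff₀ (by positivity) hη]
            nlinarith
          refine h3.trans (hi.trans ?_)
          have : (i : ℝ) ≤ m := by exact_mod_cast hm1
          exact mul_le_mul_of_nonneg_right this hlogb)
      refine ⟨fun u v hu huv hv => (h2.1 u v hu huv hv).trans ?_, fun m D => (h2.2 m D).trans ?_⟩
      · exact mul_le_mul_of_nonneg_right (min_le_left _ _) (Nat.cast_nonneg _)
      · exact mul_le_mul_of_nonneg_right (min_le_left _ _) (Nat.cast_nonneg _))
  rw [hP] at e h1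
  beta_reduce at e h1
  rw [e, Set.ncard_coe_finset]
  exact h1

end Pool.Agent.Results.MP_c8ecb2_nt.DistinctExponents
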