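import Mathlib
import Pool.Agent.X2.AdicTuple

/-!
# The joint `b`-adic complexity of the reversed digit windows of a tuple of algebraic numbers

No hypothesis is assumed.  Let `ξ = (ξ₁, …, ξ_d)` be a tuple of real numbers.  The joint `b`-adic complexity
`λ(ξ; m, n)` of the digit matrix of `ξ` with the columns `m + n, m + n - 1, …, m + 1` is the logarithm to the base `b`
of the smallest size of rational numbers `f₁ / g, …, f_d / g` with a common denominator `g` prime to `b` whose `b`-adic
expansions begin with the rows of this matrix (the smallest feedback shift register with carry which produces all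
rows).

If the `ξᵢ` are algebraic and `1, ξ₁, …, ξ_d` are linearly independent over `ℚ` then for all `ε > 0` and `K`, for
all large `n` and all `m ≤ K n`, `λ(ξ; m, n) ≥ (d / (d + 1) - ε) n`.  A counting argument (second part of the theorem)
shows that this is the value for almost all digit matrices: at most `2 ^ d (M + 1) ^ (d + 1)` matrices have a joint
complexity of at most `log_b M`.  So the digit matrices of independent algebraic tuples have, in all windows, the
joint complexity of random matrices.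
-/

set_option autoImplicit false

namespace Pool.Agent.Results.MP_c8ecb2_nt.JointAdicComplexity

open Finset

/-- the `k`-th digit of `x` after the point in base `b` -/
noncomputable def digit (b : ℕ) (x : ℝ) (k : ℕ) : ℤ := ⌊x * (b : ℝ) ^ k⌋ % (b : ℤ)

/-- the `b`-adic expansions of some rational numbers `f i / g` with a common denominator `g > 0` prime to `b` and with
`|f i| ≤ M`, `g ≤ M`, begin with the rows `c i 0, c i 1, …, c i (n - 1)` of the matrix `c`, that is
`f i / g ≡ ∑_{j < n} c i j b ^ j` modulo `b ^ n` for all `i` -/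
def Generates (b n d : ℕ) (c : Fin d → ℕ → ℤ) (M : ℕ) : Prop :=
  ∃ (f : Fin d → ℤ) (g : ℤ), 0 < g ∧ Int.gcd g b = 1 ∧
    (∀ i, (b : ℤ) ^ n ∣ g * (∑ j ∈ range n, c i j * (b : ℤ) ^ j) - f i) ∧ (∀ i, |f i| ≤ M) ∧ g ≤ M

/-- the least `M` with `Generates b n d c M` -/
noncomputable def jointSize (b n d : ℕ) (c : Fin d → ℕ → ℤ) : ℕ := sInf {M : ℕ | Generates b n d c M}

/-- the joint `b`-adic complexity of the digits of `ξ 0, …, ξ (d - 1)` in base `b` at the places
`m + n, m + n - 1, …, m + 1`, in this order -/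
noncomputable def jointComplexity (b d : ℕ) (ξ : Fin d → ℝ) (m n : ℕ) : ℝ :=
  Real.logb b (jointSize b n d (fun i j => digit b (ξ i) (m + n - j)))

lemma generates_mem (b n d : ℕ) (c : Fin d → ℕ → ℤ) : Generates b n d c (jointSize b n d c) := by
  have hne : {M : ℕ | Generates b n d c M}.Nonempty := by
    refine ⟨∑ i, (∑ j ∈ range n, c i j * (b : ℤ) ^ j).natAbs + 1,
      fun i => ∑ j ∈ range n, c i j * (b : ℤ) ^ j, 1, one_pos, by simp, fun i => by simp, ?_, ?_⟩
    · intro i
      have h1 := single_le_sum (f := fun i => (∑ j ∈ range n, c i j * (b : ℤ) ^ j).natAbs)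
        (fun _ _ => Nat.zero_le _) (mem_univ i)
      rw [Int.abs_eq_natAbs]
      exact_mod_cast h1.trans (Nat.le_succ _)
    · exact_mod_cast Nat.le_add_left 1 _
  exact Nat.sInf_mem hne

lemma jointSize_pos (b n d : ℕ) (c : Fin d → ℕ → ℤ) : 1 ≤ jointSize b n d c := by
  obtain ⟨f, g, hg, -, -, -, hgs⟩ := generates_mem b n d c
  omega

/-- **The joint `b`-adic complexity of the reversed digit windows of a tuple of algebraic numbers.** -/
theorem result :
    -- algebraic tuples: a subfamily `ξ ∘ σ` of `r` elements, linearly independent together with `1`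
    (∀ b : ℕ, 2 ≤ b → ∀ (d r : ℕ) (ξ : Fin d → ℝ) (σ : Fin r → Fin d), (∀ i, IsAlgebraic ℚ (ξ (σ i))) →
      LinearIndependent ℚ (Matrix.vecCons (1 : ℝ) (fun i => ξ (σ i))) → ∀ ε K : ℝ, 0 < ε →
      ∃ n₀ : ℕ, ∀ m n : ℕ, n₀ ≤ n → (m : ℝ) ≤ K * n →
        ((r : ℝ) / (r + 1) - ε) * n ≤ jointComplexity b d ξ m n) ∧
    -- the number of all digit matrices with a joint complexity of at most `log_b M`
    (∀ b : ℕ, 2 ≤ b → ∀ n d M : ℕ,
      {c : Fin d → Fin n → Fin b | Generates b n d (fun i j => if h : j < n then (c i ⟨j, h⟩ : ℤ) else 0) M}.ncard ≤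
        (M + 1) * (2 * M + 1) ^ d) := by
  refine ⟨?_, ?_⟩
  · intro b hb d r ξ σ hξ hind ε K hε
    obtain ⟨n₀, h⟩ := Pool.Agent.X2.AdicTuple.main b hb r (fun i => ξ (σ i)) hξ hind ε K hε
    refine ⟨n₀, fun m n hn hm => ?_⟩
    apply h m n hn hm
    obtain ⟨f, g, h1, h2, h3, h4, h5⟩ := generates_mem b n d (fun i j => digit b (ξ i) (m + n - j))
    exact ⟨fun i => f (σ i), g, h1, h2, fun i => h3 (σ i), fun i => h4 (σ i), h5⟩
  · intro b hb n d M
    classical
    set S : Set (Fin d → Fin n → Fin b) :=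
      {c | Generates b n d (fun i j => if h : j < n then (c i ⟨j, h⟩ : ℤ) else 0) M} with hS
    -- the representation
    have hrep : ∀ c : Fin d → Fin n → Fin b, c ∈ S → ∃ (f : Fin d → ℤ) (g : ℤ), 0 < g ∧
        Int.gcd g b = 1 ∧ (∀ i, (b : ℤ) ^ n ∣ g * (∑ j : Fin n, (c i j : ℤ) * (b : ℤ) ^ (j : ℕ)) - f i) ∧
        (∀ i, |f i| ≤ M) ∧ g ≤ M := by
      intro c hc
      obtain ⟨f, g, h1, h2, h3, h4, h5⟩ := hc
      refine ⟨f, g, h1, h2, fun i => ?_, h4, h5⟩
      have h6 := h3 i
      rw [Finset.sum_range] at h6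
      simpa using h6
    choose! f g hg hco hdv hf hgM using hrep
    have hval : ∀ u v : Fin n → Fin b, (b : ℤ) ^ n ∣ (∑ j : Fin n, (u j : ℤ) * (b : ℤ) ^ (j : ℕ)) -
        (∑ j : Fin n, (v j : ℤ) * (b : ℤ) ^ (j : ℕ)) → u = v := by
      intro u v huv
      have h1 : ∀ w : Fin n → Fin b, ∑ j : Fin n, (w j : ℤ) * (b : ℤ) ^ (j : ℕ) =
          ((Nat.ofDigits b (List.ofFn fun j => (w j : ℕ)) : ℕ) : ℤ) := by
        intro w
        rw [Nat.ofDigits_eq_sum_mapIdx]
        rw [List.mapIdx_eq_ofFn]
        simp only [List.sum_ofFn]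
        rw [← Fin.sum_congr' (b := n) (a := (List.ofFn fun j => (w j : ℕ)).length) _ (by simp)]
        push_cast
        simp
        rfl
      rw [h1, h1] at huv
      have hlt : ∀ w : Fin n → Fin b, Nat.ofDigits b (List.ofFn fun j => (w j : ℕ)) < b ^ n := by
        intro w
        have := Nat.ofDigits_lt_base_pow_length (b := b) (l := List.ofFn fun j => (w j : ℕ)) hb (by
          intro x hx
          rw [List.mem_ofFn] at hx
          obtain ⟨j, rfl⟩ := hx
          exact (w j).2)
        simpa using this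
      have h2 : Nat.ofDigits b (List.ofFn fun j => (u j : ℕ)) =
          Nat.ofDigits b (List.ofFn fun j => (v j : ℕ)) := by
        have e1 := hlt u
        have e2 := hlt v
        have e3 : (Nat.ofDigits b (List.ofFn fun j => (v j : ℕ))) ≡
            Nat.ofDigits b (List.ofFn fun j => (u j : ℕ)) [MOD b ^ n] := by
          rw [Nat.modEq_iff_dvd]
          exact_mod_cast huv
        have e4 := Nat.ModEq.eq_of_lt_of_lt e3 e2 e1
        exact e4.symm
      have h3 := Nat.ofDigits_inj_of_len_eq (b := b) (by omega)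
        (L1 := List.ofFn fun j => (u j : ℕ)) (L2 := List.ofFn fun j => (v j : ℕ)) (by simp)
        (by
          intro x hx
          rw [List.mem_ofFn] at hx
          obtain ⟨j, rfl⟩ := hx
          exact (u j).2) (by
          intro x hx
          rw [List.mem_ofFn] at hx
          obtain ⟨j, rfl⟩ := hx
          exact (v j).2) h2
      rw [List.ofFn_inj] at h3
      funext j
      exact Fin.ext (congrFun h3 j)
    -- the map is injective
    let Φ : (Fin d → Fin n → Fin b) → ℤ × (Fin d → ℤ) := fun c => (g c, f c)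
    have hinj : Set.InjOn Φ S := by
      intro c hc c' hc' h
      have hgg : g c = g c' := congrArg Prod.fst h
      have hff : f c = f c' := congrArg Prod.snd h
      funext i
      apply hval
      have e1 := hdv c hc i
      have e2 := hdv c' hc' i
      rw [← hgg, ← hff] at e2
      have e3 := dvd_sub e1 e2
      have e4 : g c * (∑ j : Fin n, (c i j : ℤ) * (b : ℤ) ^ (j : ℕ)) - f c i -
          (g c * (∑ j : Fin n, (c' i j : ℤ) * (b : ℤ) ^ (j : ℕ)) - f c i) =
          g c * ((∑ j : Fin n, (c i j : ℤ) * (b : ℤ) ^ (j : ℕ)) -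
            ∑ j : Fin n, (c' i j : ℤ) * (b : ℤ) ^ (j : ℕ)) := by ring
      rw [e4] at e3
      have e5 : IsCoprime ((b : ℤ) ^ n) (g c) := by
        apply IsCoprime.pow_left
        rw [Int.isCoprime_iff_gcd_eq_one, Int.gcd_comm]
        exact hco c hc
      exact e5.dvd_of_dvd_mul_left e3
    have hmaps : ∀ c ∈ S, Φ c ∈ ((Icc (0 : ℤ) M ×ˢ Fintype.piFinset fun _ : Fin d => Icc (-(M : ℤ)) M :
        Finset (ℤ × (Fin d → ℤ))) : Set (ℤ × (Fin d → ℤ))) := by
      intro c hc
      rw [mem_coe, mem_product, Fintype.mem_piFinset]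
      refine ⟨mem_Icc.2 ⟨(hg c hc).le, hgM c hc⟩, fun i => ?_⟩
      rw [mem_Icc, ← abs_le]
      exact hf c hc i
    calc S.ncard ≤ ((Icc (0 : ℤ) M ×ˢ Fintype.piFinset fun _ : Fin d => Icc (-(M : ℤ)) M :
        Finset (ℤ × (Fin d → ℤ))) : Set (ℤ × (Fin d → ℤ))).ncard :=
          Set.ncard_le_ncard_of_injOn Φ hmaps hinj (Finset.finite_toSet _)
      _ = (M + 1) * (2 * M + 1) ^ d := by
          rw [Set.ncard_coe_finset, card_product, Fintype.card_piFinset, Int.card_Icc, Int.card_Icc,
            prod_const, card_univ, Fintype.card_fin]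
          congr 2
          omega

end Pool.Agent.Results.MP_c8ecb2_nt.JointAdicComplexity
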